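import Mathlib

/-!
# Sums of sequences with a given product
-/

set_option autoImplicit false

namespace Pool.Agent.Q168.CF4.Num

open Finset

/-- a product of linear functions on a simplex is minimal at a vertex -/
theorem vertex {n : ℕ} (t c : Fin n → ℝ) (ht : ∀ j, 0 ≤ t j) (hc : ∀ j, 0 < c j) {C h m : ℝ}
    (hh : 0 < h) (hC : 0 < C) (hs : C ≤ ∑ j, c j * t j) (hm0 : 0 < m)
    (hm : ∀ j, m ≤ ∏ i, (h + if j ≤ i then C / c j else 0)) :
    m ≤ ∏ i, (h + ∑ j, if j ≤ i then t j else 0) := by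
  obtain ⟨S, hS⟩ : ∃ S, S = ∑ j, c j * t j := ⟨_, rfl⟩
  rw [← hS] at hs
  have hS0 : 0 < S := lt_of_lt_of_le hC hs
  let τ : Fin n → ℝ := fun j => c j * t j / S
  have hτ0 : ∀ j, 0 ≤ τ j := fun j => div_nonneg (mul_nonneg (hc j).le (ht j)) hS0.le
  have hτ1 : ∑ j, τ j = 1 := by
    rw [← Finset.sum_div, ← hS, div_self hS0.ne']
  have hA : ∀ i j, 0 ≤ h + (if j ≤ i then C / c j else 0) := by
    intro i j
    split_ifs
    · exact add_nonneg hh.le (div_nonneg hC.le (hc j).le)
    · linarith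
  calc m = m ^ (∑ j, τ j) := by rw [hτ1, Real.rpow_one]
    _ = ∏ j, m ^ (τ j) := by rw [Real.rpow_sum_of_pos hm0]
    _ ≤ ∏ j, (∏ i, (h + if j ≤ i then C / c j else 0)) ^ (τ j) := by
        refine prod_le_prod (fun j _ => by positivity) fun j _ => ?_
        exact Real.rpow_le_rpow hm0.le (hm j) (hτ0 j)
    _ = ∏ j, ∏ i, (h + if j ≤ i then C / c j else 0) ^ (τ j) := by
        refine prod_congr rfl fun j _ => ?_
        rw [Real.finsetProd_rpow _ _ fun i _ => hA i j]
    _ = ∏ i, ∏ j, (h + if j ≤ i then C / c j else 0) ^ (τ j) := prod_comm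
    _ ≤ ∏ i, ∑ j, τ j * (h + if j ≤ i then C / c j else 0) := by
        refine prod_le_prod (fun i _ => prod_nonneg fun j _ => Real.rpow_nonneg (hA i j) _)
          fun i _ => ?_
        exact Real.geom_mean_le_arith_mean_weighted _ _ _ (fun j _ => hτ0 j) hτ1 fun j _ => hA i j
    _ ≤ ∏ i, (h + ∑ j, if j ≤ i then t j else 0) := by
        refine prod_le_prod (fun i _ => sum_nonneg fun j _ => mul_nonneg (hτ0 j) (hA i j))
          fun i _ => ?_
        have e1 : ∑ j, τ j * (h + if j ≤ i then C / c j else 0) =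
            h + ∑ j, τ j * (if j ≤ i then C / c j else 0) := by
          simp only [mul_add, sum_add_distrib, ← sum_mul, hτ1, one_mul]
        rw [e1]
        refine add_le_add_right (sum_le_sum fun j _ => ?_) _
        split_ifs
        · have e2 : τ j * (C / c j) = t j * (C / S) := by
            have := (hc j).ne'
            simp only [τ]
            field_simp
          rw [e2]
          exact mul_le_of_le_one_right (ht j) ((div_le_one hS0).2 hs)
        · simp

theorem num3 {x1 x2 : ℝ} (h1 : 6 ≤ x1) (h2 : 3 / 4 * x1 ≤ x2)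
    (hs : 56 ≤ 8 + (x1 + x2)) : 2016 ≤ 8 * (x1 * x2) := by
  have key := vertex (n := 2)
    ![x1 / (3/4) - 8, x2 / (9/16) - x1 / (3/4)]
    ![21/16, 9/16]
    (C := 75/2) (h := 8) (m := 1792/3)
    (by intro j; fin_cases j <;> simp <;> linarith)
    (by intro j; fin_cases j <;> norm_num)
    (by norm_num) (by norm_num)
    (by simp only [Fin.sum_univ_two]; simp; linarith)
    (by norm_num)
    (by intro j; simp only [Fin.prod_univ_two]; fin_cases j <;> simp <;> norm_num)
  simp only [Fin.prod_univ_two, Fin.sum_univ_two] at key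
  simp at key
  ring_nf at key ⊢
  linarith

theorem num4 {x1 x2 x3 : ℝ} (h1 : 6 ≤ x1) (h2 : 3 / 4 * x1 ≤ x2) (h3 : 3 / 4 * x2 ≤ x3)
    (hs : 56 ≤ 8 + (x1 + x2 + x3)) : 8100 ≤ 8 * (x1 * (x2 * x3)) := by
  have key := vertex (n := 3)
    ![x1 / (3/4) - 8, x2 / (9/16) - x1 / (3/4), x3 / (27/64) - x2 / (9/16)]
    ![111/64, 63/64, 27/64]
    (C := 273/8) (h := 8) (m := 51200/9)
    (by intro j; fin_cases j <;> simp <;> linarith)
    (by intro j; fin_cases j <;> norm_num)
    (by norm_num) (by norm_num)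
    (by simp only [Fin.sum_univ_three]; simp; linarith)
    (by norm_num)
    (by intro j; simp only [Fin.prod_univ_three]; fin_cases j <;> simp <;> norm_num)
  simp only [Fin.prod_univ_three, Fin.sum_univ_three] at key
  simp at key
  ring_nf at key ⊢
  linarith

theorem num5 {x1 x2 x3 x4 : ℝ} (h1 : 6 ≤ x1) (h2 : 3 / 4 * x1 ≤ x2) (h3 : 3 / 4 * x2 ≤ x3) (h4 : 3 / 4 * x3 ≤ x4)
    (hs : 56 ≤ 8 + (x1 + x2 + x3 + x4)) : 199017/8 ≤ 8 * (x1 * (x2 * (x3 * x4))) := by
  have key := vertex (n := 4)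
    ![x1 / (3/4) - 8, x2 / (9/16) - x1 / (3/4), x3 / (27/64) - x2 / (9/16), x4 / (81/256) - x3 / (27/64)]
    ![525/256, 333/256, 189/256, 81/256]
    (C := 1011/32) (h := 8) (m := 1490944/27)
    (by intro j; fin_cases j <;> simp <;> linarith)
    (by intro j; fin_cases j <;> norm_num)
    (by norm_num) (by norm_num)
    (by simp only [Fin.sum_univ_four]; simp; linarith)
    (by norm_num)
    (by intro j; simp only [Fin.prod_univ_four]; fin_cases j <;> simp <;> norm_num)
  simp only [Fin.prod_univ_four, Fin.sum_univ_four] at key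
  simp at key
  ring_nf at key ⊢
  linarith

theorem num6 {x1 x2 x3 x4 x5 : ℝ} (h1 : 6 ≤ x1) (h2 : 3 / 4 * x1 ≤ x2) (h3 : 3 / 4 * x2 ≤ x3) (h4 : 3 / 4 * x3 ≤ x4) (h5 : 3 / 4 * x4 ≤ x5)
    (hs : 56 ≤ 8 + (x1 + x2 + x3 + x4 + x5)) : 59698539/1024 ≤ 8 * (x1 * (x2 * (x3 * (x4 * x5)))) := by
  have key := vertex (n := 5)
    ![x1 / (3/4) - 8, x2 / (9/16) - x1 / (3/4), x3 / (27/64) - x2 / (9/16), x4 / (81/256) - x3 / (27/64), x5 / (243/1024) - x4 / (81/256)]
    ![2343/1024, 1575/1024, 999/1024, 567/1024, 243/1024]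
    (C := 3801/128) (h := 8) (m := 44171264/81)
    (by intro j; fin_cases j <;> simp <;> linarith)
    (by intro j; fin_cases j <;> norm_num)
    (by norm_num) (by norm_num)
    (by simp only [Fin.sum_univ_five]; simp; linarith)
    (by norm_num)
    (by intro j; simp only [Fin.prod_univ_five]; fin_cases j <;> simp <;> norm_num)
  simp only [Fin.prod_univ_five, Fin.sum_univ_five] at key
  simp at key
  ring_nf at key ⊢
  linarith

theorem num7 {x1 x2 x3 x4 x5 x6 : ℝ} (h1 : 6 ≤ x1) (h2 : 3 / 4 * x1 ≤ x2) (h3 : 3 / 4 * x2 ≤ x3) (h4 : 3 / 4 * x3 ≤ x4) (h5 : 3 / 4 * x4 ≤ x5) (h6 : 3 / 4 * x5 ≤ x6)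
    (hs : 56 ≤ 8 + (x1 + x2 + x3 + x4 + x5 + x6)) : 54540195507/524288 ≤ 8 * (x1 * (x2 * (x3 * (x4 * (x5 * x6))))) := by
  have key := vertex (n := 6)
    ![x1 / (3/4) - 8, x2 / (9/16) - x1 / (3/4), x3 / (27/64) - x2 / (9/16), x4 / (81/256) - x3 / (27/64), x5 / (243/1024) - x4 / (81/256), x6 / (729/4096) - x5 / (243/1024)]
    ![10101/4096, 7029/4096, 4725/4096, 2997/4096, 1701/4096, 729/4096]
    (C := 14475/512) (h := 8) (m := 1328545792/243)
    (by intro j; fin_cases j <;> simp <;> linarith)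
    (by intro j; fin_cases j <;> norm_num)
    (by norm_num) (by norm_num)
    (by simp only [Fin.sum_univ_six]; simp; linarith)
    (by norm_num)
    (by intro j; simp only [Fin.prod_univ_six]; fin_cases j <;> simp <;> norm_num)
  simp only [Fin.prod_univ_six, Fin.sum_univ_six] at key
  simp at key
  ring_nf at key ⊢
  linarith

end Pool.Agent.Q168.CF4.Num
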