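import Mathlib

/-!
# Reduction of positive definite integral forms
-/

set_option autoImplicit false

namespace Pool.Agent.Q168.CF4.Red

open Module Matrix

/-- a positive definite symmetric bilinear form with integral values -/
structure IsForm {M : Type} [AddCommGroup M] (B : M → M → ℤ) : Prop where
  add_left : ∀ x y z, B (x + y) z = B x z + B y z
  smul_left : ∀ (k : ℤ) x z, B (k • x) z = k * B x z
  comm : ∀ x y, B x y = B y x
  pos : ∀ x, x ≠ 0 → 0 < B x x

/-- the Gram matrix of a family -/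
def gram {M ι : Type} (B : M → M → ℤ) (b : ι → M) : Matrix ι ι ℤ := Matrix.of fun i j => B (b i) (b j)

section

variable {M : Type} [AddCommGroup M] {B : M → M → ℤ} (hB : IsForm B)

include hB

theorem IsForm.add_right (x y z : M) : B x (y + z) = B x y + B x z := by
  rw [hB.comm, hB.add_left, hB.comm y, hB.comm z]

theorem IsForm.smul_right (k : ℤ) (x z : M) : B x (k • z) = k * B x z := by
  rw [hB.comm, hB.smul_left, hB.comm z]

theorem IsForm.zero_left (x : M) : B 0 x = 0 := by
  have := hB.smul_left 0 0 x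
  simpa using this

theorem IsForm.neg_left (x y : M) : B (-x) y = -B x y := by
  have := hB.smul_left (-1) x y
  simpa using this

theorem IsForm.sub_left (x y z : M) : B (x - y) z = B x z - B y z := by
  rw [sub_eq_add_neg, hB.add_left, hB.neg_left]; ring

theorem IsForm.sub_right (x y z : M) : B x (y - z) = B x y - B x z := by
  rw [hB.comm, hB.sub_left, hB.comm y, hB.comm z]

/-- the bilinear form in the sense of Mathlib -/
noncomputable def IsForm.toBilin : LinearMap.BilinForm ℤ M :=
  LinearMap.mk₂ ℤ B hB.add_left (fun k x y => by simpa using hB.smul_left k x y)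
    hB.add_right (fun k x y => by simpa using hB.smul_right k x y)

theorem IsForm.toBilin_apply (x y : M) : hB.toBilin x y = B x y := rfl

omit hB in
theorem det_unit_sq {ι : Type} [Fintype ι] [DecidableEq ι] (b c : Basis ι ℤ M) :
    (b.toMatrix c).det * (b.toMatrix c).det = 1 := by
  have h1 : (b.toMatrix c).det * (c.toMatrix b).det = 1 := by
    rw [← Matrix.det_mul, Basis.toMatrix_mul_toMatrix_flip, Matrix.det_one]
  have h2 : IsUnit (b.toMatrix c).det := IsUnit.of_mul_eq_one _ h1
  rcases Int.isUnit_iff.1 h2 with h | h <;> rw [h] <;> norm_num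

/-- the Gram determinant does not depend on the basis -/
theorem det_gram_eq {ι : Type} [Fintype ι] [DecidableEq ι] (b c : Basis ι ℤ M) :
    (gram B b).det = (gram B c).det := by
  have e : ∀ d : Basis ι ℤ M, gram B d = LinearMap.BilinForm.toMatrix d hB.toBilin := by
    intro d
    ext i j
    rw [LinearMap.BilinForm.toMatrix_apply]
    rfl
  have h := LinearMap.BilinForm.toMatrix_mul_basis_toMatrix b c hB.toBilin
  rw [e b, e c, ← h, Matrix.det_mul, Matrix.det_mul, Matrix.det_transpose]
  have := det_unit_sq b c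
  calc (LinearMap.BilinForm.toMatrix b hB.toBilin).det
      = ((b.toMatrix c).det * (b.toMatrix c).det) *
        (LinearMap.BilinForm.toMatrix b hB.toBilin).det := by rw [this, one_mul]
    _ = _ := by ring

/-- the Gram determinant with different index types -/
theorem det_gram_eq' {ι κ : Type} [Fintype ι] [DecidableEq ι] [Fintype κ] [DecidableEq κ]
    (b : Basis ι ℤ M) (c : Basis κ ℤ M) : (gram B b).det = (gram B c).det := by
  have e : ι ≃ κ := b.indexEquiv c
  rw [det_gram_eq hB b (c.reindex e.symm)]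
  have : gram B (c.reindex e.symm) = (gram B c).submatrix e e := by
    ext i j
    simp [gram]
  rw [this, Matrix.det_submatrix_equiv_self]

end

theorem exists_basis_span {M : Type} [AddCommGroup M] [Module.Free ℤ M] {v : M} (hv : v ≠ 0) :
    ∃ bN : Basis Unit ℤ (Submodule.span ℤ ({v} : Set M)), (bN () : M) = v := by
  have hmem : v ∈ Submodule.span ℤ ({v} : Set M) := Submodule.mem_span_singleton_self v
  have hli : LinearIndependent ℤ
      (fun _ : Unit => (⟨v, hmem⟩ : Submodule.span ℤ ({v} : Set M))) := by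
    rw [linearIndependent_unique_iff]
    intro h
    exact hv (congrArg Subtype.val h)
  have hsp : ⊤ ≤ Submodule.span ℤ (Set.range
      (fun _ : Unit => (⟨v, hmem⟩ : Submodule.span ℤ ({v} : Set M)))) := by
    rintro ⟨x, hx⟩ -
    obtain ⟨m, hm⟩ := Submodule.mem_span_singleton.1 hx
    have : (⟨x, hx⟩ : Submodule.span ℤ {v}) = m • (⟨v, hmem⟩ : Submodule.span ℤ {v}) :=
      Subtype.ext hm.symm
    rw [this]
    exact Submodule.smul_mem _ _ (Submodule.subset_span ⟨(), rfl⟩)
  refine ⟨Basis.mk hli hsp, ?_⟩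
  rw [Basis.mk_apply]

/-- The quotient by a primitive vector is torsion-free; so the vector is part of a basis. -/
theorem exists_basis {M : Type} [AddCommGroup M] [Module.Free ℤ M] [Module.Finite ℤ M] {n : ℕ}
    (hn : finrank ℤ M = n + 1) {v : M} (hv : v ≠ 0)
    (hp : ∀ (k m : ℤ) (x : M), k ≠ 0 → k • x = m • v → ∃ t : ℤ, x = t • v) :
    ∃ c : Basis (Unit ⊕ Fin n) ℤ M, c (Sum.inl ()) = v := by
  have hN : Module.IsTorsionFree ℤ (M ⧸ (Submodule.span ℤ {v})) := by
    refine Module.IsTorsionFree.of_smul_eq_zero fun k x h => ?_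
    by_cases hk : k = 0
    · exact Or.inl hk
    · right
      obtain ⟨y, rfl⟩ := Submodule.Quotient.mk_surjective _ x
      rw [← Submodule.Quotient.mk_smul, Submodule.Quotient.mk_eq_zero] at h
      rw [Submodule.Quotient.mk_eq_zero]
      obtain ⟨m, hm⟩ := Submodule.mem_span_singleton.1 h
      obtain ⟨t, ht⟩ := hp k m y hk hm.symm
      rw [ht]
      exact Submodule.smul_mem _ _ (Submodule.mem_span_singleton_self v)
  have hF : Module.Free ℤ (M ⧸ (Submodule.span ℤ {v})) := Module.free_of_finite_type_torsion_free'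
  obtain ⟨bN, hbN⟩ := exists_basis_span hv
  have h1 : finrank ℤ (M ⧸ (Submodule.span ℤ {v})) = n := by
    have h2 := Submodule.finrank_quotient_add_finrank (Submodule.span ℤ {v})
    have h3 : finrank ℤ (Submodule.span ℤ {v}) = 1 := by
      rw [finrank_eq_card_basis bN, Fintype.card_unit]
    omega
  refine ⟨Basis.sumQuot bN (finBasisOfFinrankEq ℤ (M ⧸ (Submodule.span ℤ {v})) h1), ?_⟩
  rw [Basis.sumQuot_inl]
  exact hbN

/-- the linear map of a family of vectors -/
def comb {M : Type} [AddCommGroup M] {n : ℕ} (c : Fin n → M) (x : Fin n → ℤ) : M := ∑ i, x i • c i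

theorem comb_add {M : Type} [AddCommGroup M] {n : ℕ} (c : Fin n → M) (x y : Fin n → ℤ) :
    comb c (x + y) = comb c x + comb c y := by
  simp [comb, add_smul, Finset.sum_add_distrib]

theorem comb_smul {M : Type} [AddCommGroup M] {n : ℕ} (c : Fin n → M) (k : ℤ) (x : Fin n → ℤ) :
    comb c (k • x) = k • comb c x := by
  simp [comb, mul_smul, Finset.smul_sum]

theorem comb_single {M : Type} [AddCommGroup M] {n : ℕ} (c : Fin n → M) (i : Fin n) :
    comb c (Pi.single i 1) = c i := by
  simp [comb, Pi.single_apply, Finset.sum_ite_eq']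

/-- **The step**: the projected form. -/
theorem step {M : Type} [AddCommGroup M] {B : M → M → ℤ} (hB : IsForm B)
    [Module.Free ℤ M] [Module.Finite ℤ M] {n : ℕ}
    (b : Basis (Fin (n + 1)) ℤ M) {v : M} (hv : v ≠ 0)
    (hp : ∀ (k m : ℤ) (x : M), k ≠ 0 → k • x = m • v → ∃ t : ℤ, x = t • v) :
    ∃ c : Fin n → M, (∀ w, ∃ (k : ℤ) (x : Fin n → ℤ), w = k • v + comb c x) ∧
      (∀ (k : ℤ) (x : Fin n → ℤ), k • v + comb c x = 0 → k = 0 ∧ x = 0) ∧
      IsForm (fun x y : Fin n → ℤ => B v v * B (comb c x) (comb c y) -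
        B (comb c x) v * B (comb c y) v) ∧
      B v v * (gram (fun x y : Fin n → ℤ => B v v * B (comb c x) (comb c y) -
        B (comb c x) v * B (comb c y) v) (Pi.basisFun ℤ (Fin n))).det =
        (B v v) ^ n * (gram B b).det := by
  have hn : finrank ℤ M = n + 1 := by
    rw [finrank_eq_card_basis b, Fintype.card_fin]
  obtain ⟨c, hc⟩ := exists_basis hn hv hp
  obtain ⟨a, ha⟩ : ∃ a, a = B v v := ⟨_, rfl⟩
  have ha0 : 0 < a := ha ▸ hB.pos v hv
  set c' : Fin n → M := fun i => c (Sum.inr i) with hc'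
  have hinj : ∀ (k : ℤ) (x : Fin n → ℤ), k • v + comb c' x = 0 → k = 0 ∧ x = 0 := by
    intro k x h
    have h1 := (Fintype.linearIndependent_iff.1 c.linearIndependent)
      (Sum.elim (fun _ => k) x) (by
        rw [Fintype.sum_sum_type]
        simp only [Sum.elim_inl, Sum.elim_inr, Finset.univ_unique, Finset.sum_singleton]
        rw [show c (Sum.inl default) = v from hc]
        exact h)
    refine ⟨h1 (Sum.inl ()), funext fun i => h1 (Sum.inr i)⟩
  refine ⟨c', fun w => ?_, hinj, ⟨?_, ?_, ?_, ?_⟩, ?_⟩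
  · refine ⟨c.repr w (Sum.inl ()), fun i => c.repr w (Sum.inr i), ?_⟩
    have h := c.sum_repr w
    rw [Fintype.sum_sum_type] at h
    simp only [Finset.univ_unique, Finset.sum_singleton] at h
    rw [show c (Sum.inl default) = v from hc] at h
    exact h.symm
  · intro x y z
    simp only [comb_add, hB.add_left]
    ring
  · intro k x z
    simp only [comb_smul, hB.smul_left]
    ring
  · intro x y
    simp only [hB.comm (comb c' x) (comb c' y)]
    ring
  · intro x hx
    have h1 : a • comb c' x - B (comb c' x) v • v ≠ 0 := by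
      intro h0
      have h2 := hinj (-B (comb c' x) v) (a • x) (by
        rw [comb_smul, neg_smul, ← h0]; abel)
      apply hx
      funext i
      have h3 := congrFun h2.2 i
      simp only [Pi.smul_apply, smul_eq_mul, Pi.zero_apply, mul_eq_zero] at h3
      rcases h3 with h3 | h3
      · omega
      · exact h3
    have h2 := hB.pos _ h1
    simp only [hB.sub_left, hB.sub_right, hB.smul_left, hB.smul_right] at h2
    rw [hB.comm v (comb c' x)] at h2
    rw [← ha] at h2 ⊢
    have h3 : a * (a * B (comb c' x) (comb c' x) - B (comb c' x) v * B (comb c' x) v) > 0 := by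
      linarith
    exact (mul_pos_iff_of_pos_left ha0).1 h3
  · -- the determinant
    rw [← ha]
    have h1 : (gram B b).det = (gram B c).det := det_gram_eq' hB b c
    have haQ : (a : ℚ) ≠ 0 := by exact_mod_cast ha0.ne'
    have h2 : ((gram B c).det : ℚ) * (a : ℚ) ^ n = (a : ℚ) * ((gram (fun x y : Fin n → ℤ =>
        a * B (comb c' x) (comb c' y) - B (comb c' x) v * B (comb c' y) v)
        (Pi.basisFun ℤ (Fin n))).det : ℚ) := by
      have e1 : ((gram B c).det : ℚ) = ((gram B c).map (Int.castRingHom ℚ)).det := by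
        rw [← RingHom.mapMatrix_apply, ← RingHom.map_det]; rfl
      have e2 : (gram B c).map (Int.castRingHom ℚ) = Matrix.fromBlocks
          (Matrix.of fun (_ _ : Unit) => (a : ℚ)) (Matrix.of fun (_ : Unit) (j : Fin n) => (B v (c' j) : ℚ))
          (Matrix.of fun (i : Fin n) (_ : Unit) => (B (c' i) v : ℚ))
          (Matrix.of fun (i j : Fin n) => (B (c' i) (c' j) : ℚ)) := by
        ext i j
        rcases i with i | i <;> rcases j with j | j <;>
          simp [gram, hc', ha, ← hc]
      let _inst : Invertible (Matrix.of fun (_ _ : Unit) => (a : ℚ)) := by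
        refine Matrix.invertibleOfIsUnitDet _ ?_
        simp [haQ]
      have e3 : (⅟ (Matrix.of fun (_ _ : Unit) => (a : ℚ))) = Matrix.of fun (_ _ : Unit) => (a : ℚ)⁻¹ := by
        refine invOf_eq_right_inv ?_
        ext i j
        simp [Matrix.mul_apply, haQ]
      have e4 : (gram (fun x y : Fin n → ℤ =>
          a * B (comb c' x) (comb c' y) - B (comb c' x) v * B (comb c' y) v)
          (Pi.basisFun ℤ (Fin n))).map (Int.castRingHom ℚ) =
          (a : ℚ) • (Matrix.of (fun (i j : Fin n) => (B (c' i) (c' j) : ℚ)) -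
            (Matrix.of fun (i : Fin n) (_ : Unit) => (B (c' i) v : ℚ)) *
            ⅟ (Matrix.of fun (_ _ : Unit) => (a : ℚ)) *
            (Matrix.of fun (_ : Unit) (j : Fin n) => (B v (c' j) : ℚ))) := by
        rw [e3]
        ext i j
        simp only [gram, Matrix.map_apply, Matrix.of_apply, Pi.basisFun_apply, comb_single,
          Matrix.smul_apply, Matrix.sub_apply, Matrix.mul_apply, Finset.univ_unique,
          Finset.sum_singleton, smul_eq_mul, eq_intCast, Int.cast_sub, Int.cast_mul]
        rw [hB.comm v (c' j)]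
        field_simp
      have e5 : ((gram (fun x y : Fin n → ℤ =>
          a * B (comb c' x) (comb c' y) - B (comb c' x) v * B (comb c' y) v)
          (Pi.basisFun ℤ (Fin n))).det : ℚ) = ((gram (fun x y : Fin n → ℤ =>
          a * B (comb c' x) (comb c' y) - B (comb c' x) v * B (comb c' y) v)
          (Pi.basisFun ℤ (Fin n))).map (Int.castRingHom ℚ)).det := by
        rw [← RingHom.mapMatrix_apply, ← RingHom.map_det]; rfl
      rw [e1, e2, Matrix.det_fromBlocks₁₁, e5, e4, Matrix.det_smul, Fintype.card_fin]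
      simp only [Matrix.det_unique, Matrix.of_apply]
      ring
    rw [h1]
    have h3 : ((a ^ n * (gram B c).det : ℤ) : ℚ) = ((a * (gram (fun x y : Fin n → ℤ =>
        a * B (comb c' x) (comb c' y) - B (comb c' x) v * B (comb c' y) v)
        (Pi.basisFun ℤ (Fin n))).det : ℤ) : ℚ) := by
      rw [Int.cast_mul, Int.cast_mul, ← h2, Int.cast_pow]
      ring
    exact_mod_cast h3.symm

/-- the reduced sequence of a form -/
structure Reduced {M : Type} [AddCommGroup M] (B : M → M → ℤ) (l : List ℚ) : Prop where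
  pos : ∀ x ∈ l, 0 < x
  chain : l.IsChain (fun x y => 3 / 4 * x ≤ y)
  sum : ∀ w, ∃ x, (B (w + (2 : ℤ) • x) (w + (2 : ℤ) • x) : ℚ) ≤ l.sum
  head : ∀ x, l.head? = some x → ∃ v, v ≠ 0 ∧ (B v v : ℚ) = x ∧ (∀ w, w ≠ 0 → B v v ≤ B w w) ∧
    ∀ w, ∃ (y : M) (t : ℤ), (B (w + (2 : ℤ) • y + t • v) (w + (2 : ℤ) • y + t • v) : ℚ) ≤
      l.sum - 3 / 4 * x

theorem near (a b : ℤ) (ha : 0 < a) : ∃ t : ℤ, (2 * (b + t * a)) ^ 2 ≤ a ^ 2 := by
  refine ⟨-((2 * b + a) / (2 * a)), ?_⟩
  have h1 := Int.emod_nonneg (2 * b + a) (b := 2 * a) (by omega)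
  have h2 := Int.emod_lt_of_pos (2 * b + a) (b := 2 * a) (by omega)
  have h3 := Int.emod_add_mul_ediv (2 * b + a) (2 * a)
  obtain ⟨q, hq⟩ : ∃ q, q = (2 * b + a) / (2 * a) := ⟨_, rfl⟩
  obtain ⟨r, hr⟩ : ∃ r, r = (2 * b + a) % (2 * a) := ⟨_, rfl⟩
  rw [← hq, ← hr] at h3
  rw [← hr] at h1 h2
  rw [← hq]
  have h4 : 2 * (b + -q * a) = r - a := by linarith
  rw [h4]
  nlinarith

theorem near2 (a b : ℤ) (ha : 0 < a) : ∃ t : ℤ, (b + 2 * t * a) ^ 2 ≤ a ^ 2 := by
  refine ⟨-((b + a) / (2 * a)), ?_⟩
  have h1 := Int.emod_nonneg (b + a) (b := 2 * a) (by omega)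
  have h2 := Int.emod_lt_of_pos (b + a) (b := 2 * a) (by omega)
  have h3 := Int.emod_add_mul_ediv (b + a) (2 * a)
  obtain ⟨q, hq⟩ : ∃ q, q = (b + a) / (2 * a) := ⟨_, rfl⟩
  obtain ⟨r, hr⟩ : ∃ r, r = (b + a) % (2 * a) := ⟨_, rfl⟩
  rw [← hq, ← hr] at h3
  rw [← hr] at h1 h2
  rw [← hq]
  have h4 : b + 2 * -q * a = r - a := by linarith
  rw [h4]
  nlinarith

theorem prod_map_div (l : List ℚ) (a : ℚ) : (l.map (· / a)).prod = l.prod / a ^ l.length := by
  induction l with
  | nil => simp
  | cons x l ih =>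
    rw [List.map_cons, List.prod_cons, ih, List.prod_cons, List.length_cons, pow_succ,
      div_mul_div_comm, mul_comm a]

theorem sum_map_div (l : List ℚ) (a : ℚ) : (l.map (· / a)).sum = l.sum / a := by
  induction l with
  | nil => simp
  | cons x l ih => rw [List.map_cons, List.sum_cons, ih, List.sum_cons, add_div]

theorem exists_min {M : Type} [AddCommGroup M] {B : M → M → ℤ} (hB : IsForm B) {u : M}
    (hu : u ≠ 0) : ∃ v, v ≠ 0 ∧ ∀ w, w ≠ 0 → B v v ≤ B w w := by
  classical
  have hex : ∃ k : ℕ, ∃ v, v ≠ 0 ∧ B v v = k := ⟨(B u u).toNat, u, hu, by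
    have := hB.pos u hu
    omega⟩
  obtain ⟨v, hv, hk⟩ := Nat.find_spec hex
  refine ⟨v, hv, fun w hw => ?_⟩
  have h1 := hB.pos w hw
  have h2 := Nat.find_min' hex (m := (B w w).toNat) ⟨w, hw, by omega⟩
  omega

theorem prim_of_min {M : Type} [AddCommGroup M] {B : M → M → ℤ} (hB : IsForm B) {v : M}
    (hv : v ≠ 0) (hmin : ∀ w, w ≠ 0 → B v v ≤ B w w) (k m : ℤ) (x : M) (hk : k ≠ 0)
    (h : k • x = m • v) : ∃ t : ℤ, x = t • v := by
  refine ⟨m / k, ?_⟩
  by_contra hne
  have hy : x - (m / k) • v ≠ 0 := sub_ne_zero.2 hne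
  have h1 := hmin _ hy
  have h2 : k • (x - (m / k) • v) = (m % k) • v := by
    rw [smul_sub, h, smul_smul, ← sub_smul]
    congr 1
    have := Int.emod_add_mul_ediv m k
    linarith
  have h3 : k ^ 2 * B (x - (m / k) • v) (x - (m / k) • v) = (m % k) ^ 2 * B v v := by
    have e1 : B (k • (x - (m / k) • v)) (k • (x - (m / k) • v)) =
        k ^ 2 * B (x - (m / k) • v) (x - (m / k) • v) := by
      rw [hB.smul_left, hB.smul_right]; ring
    rw [← e1, h2, hB.smul_left, hB.smul_right]; ring
  have h4 := Int.emod_nonneg m hk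
  have h5 : m % k < |k| := Int.emod_lt_abs m hk
  have h6 : (m % k) ^ 2 < k ^ 2 := by
    rw [← sq_abs k]
    nlinarith
  have h7 := hB.pos v hv
  have h8 : 0 < k ^ 2 := by positivity
  nlinarith

theorem exists_red : ∀ (n : ℕ) (M : Type) [AddCommGroup M] [Module.Free ℤ M] [Module.Finite ℤ M]
    (B : M → M → ℤ) (_ : IsForm B) (b : Basis (Fin n) ℤ M),
    ∃ l : List ℚ, l.length = n ∧ l.prod = ((gram B b).det : ℚ) ∧ Reduced B l := by
  intro n
  induction n with
  | zero =>
    intro M _ _ _ B hB b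
    refine ⟨[], rfl, by simp, ⟨by simp, by simp, fun w => ⟨0, ?_⟩, by simp⟩⟩
    have : w = 0 := by
      rw [← b.sum_repr w]
      simp
    rw [this, smul_zero, add_zero, hB.zero_left]
    simp
  | succ n ih =>
    intro M _ _ _ B hB b
    obtain ⟨v, hv, hmin⟩ := exists_min hB (b.ne_zero 0)
    obtain ⟨c, hc1, hc2, hB', hdet⟩ := step hB b hv (prim_of_min hB hv hmin)
    obtain ⟨l, hl1, hl2, hl3⟩ := ih (Fin n → ℤ) _ hB' (Pi.basisFun ℤ (Fin n))
    obtain ⟨a, ha⟩ : ∃ a, a = B v v := ⟨_, rfl⟩
    have ha0 : 0 < a := ha ▸ hB.pos v hv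
    have haQ : (0 : ℚ) < a := by exact_mod_cast ha0
    rw [← ha] at hdet hl2 hl3 hmin
    have hid : ∀ (k : ℤ) (x : Fin n → ℤ), a * B (k • v + comb c x) (k • v + comb c x) =
        (a * B (comb c x) (comb c x) - B (comb c x) v * B (comb c x) v) +
          B (k • v + comb c x) v ^ 2 := by
      intro k x
      simp only [hB.add_left, hB.add_right, hB.smul_left, hB.smul_right, ← ha]
      rw [hB.comm v (comb c x)]
      ring
    refine ⟨(a : ℚ) :: l.map (· / (a : ℚ)), by simp [hl1], ?_, ?_, ?_, ?_, ?_⟩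
    · rw [List.prod_cons, prod_map_div, hl1, hl2]
      have h1 : (a : ℚ) * ((gram (fun x y : Fin n → ℤ => a * B (comb c x) (comb c y) -
        B (comb c x) v * B (comb c y) v) (Pi.basisFun ℤ (Fin n))).det : ℚ) =
          (a : ℚ) ^ n * ((gram B b).det : ℚ) := by exact_mod_cast hdet
      rw [mul_div_assoc', h1]
      field_simp
    · intro x hx
      rcases List.mem_cons.1 hx with rfl | hx
      · exact haQ
      · obtain ⟨y, hy, rfl⟩ := List.mem_map.1 hx
        exact div_pos (hl3.pos y hy) haQ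
    · -- the chain
      have hch : (l.map (· / (a : ℚ))).IsChain (fun x y => 3 / 4 * x ≤ y) := by
        rw [List.isChain_map]
        refine hl3.chain.imp fun x y h => ?_
        rw [mul_div_assoc']
        gcongr
      cases l with
      | nil => simp
      | cons x l =>
        rw [List.map_cons] at hch ⊢
        rw [List.isChain_cons_cons]
        refine ⟨?_, hch⟩
        obtain ⟨w, hw, hwx, -⟩ := hl3.head x rfl
        obtain ⟨t, ht⟩ := near a (B (comb c w) v) ha0
        have hz : t • v + comb c w ≠ 0 := fun h0 => hw (hc2 t w h0).2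
        have h1 := hmin _ hz
        have h2 := hid t w
        have h3 : B (t • v + comb c w) v = B (comb c w) v + t * a := by
          rw [hB.add_left, hB.smul_left, ← ha]; ring
        rw [h3] at h2
        have h4 : 3 * a ^ 2 ≤ 4 * (a * B (comb c w) (comb c w) - B (comb c w) v * B (comb c w) v) := by
          nlinarith
        rw [← hwx]
        have h5 : (3 : ℚ) * a ^ 2 ≤ 4 * ((a * B (comb c w) (comb c w) -
            B (comb c w) v * B (comb c w) v : ℤ) : ℚ) := by exact_mod_cast h4
        rw [le_div_iff₀ haQ]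
        nlinarith
    · -- the sum
      intro w
      obtain ⟨k, x, rfl⟩ := hc1 w
      obtain ⟨x', hx'⟩ := hl3.sum x
      obtain ⟨t, ht⟩ := near2 a (B (k • v + comb c (x + (2 : ℤ) • x')) v) ha0
      refine ⟨t • v + comb c x', ?_⟩
      have e1 : k • v + comb c x + (2 : ℤ) • (t • v + comb c x') =
          (k + 2 * t) • v + comb c (x + (2 : ℤ) • x') := by
        rw [comb_add, comb_smul, smul_add, add_smul, mul_smul]
        abel
      rw [e1, List.sum_cons, sum_map_div]
      have h1 := hid (k + 2 * t) (x + (2 : ℤ) • x')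
      have h3 : B ((k + 2 * t) • v + comb c (x + (2 : ℤ) • x')) v =
          B (k • v + comb c (x + (2 : ℤ) • x')) v + 2 * t * a := by
        rw [hB.add_left, hB.add_left, hB.smul_left, hB.smul_left, ← ha]; ring
      rw [h3] at h1
      have h4 : ((a * B ((k + 2 * t) • v + comb c (x + (2 : ℤ) • x'))
          ((k + 2 * t) • v + comb c (x + (2 : ℤ) • x')) : ℤ) : ℚ) ≤ l.sum + a ^ 2 := by
        rw [h1]
        have h5 : (((B (k • v + comb c (x + (2 : ℤ) • x')) v + 2 * t * a) ^ 2 : ℤ) : ℚ) ≤ a ^ 2 := by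
          exact_mod_cast ht
        rw [Int.cast_add]
        exact add_le_add hx' h5
      rw [Int.cast_mul] at h4
      have h6 : (a : ℚ) + l.sum / a = (l.sum + a ^ 2) / a := by
        field_simp
        ring
      rw [h6, le_div_iff₀ haQ, mul_comm]
      exact h4
    · intro x hx
      simp only [List.head?_cons, Option.some.injEq] at hx
      refine ⟨v, hv, by rw [← hx, ha], fun w hw => by rw [← ha]; exact hmin w hw, fun w => ?_⟩
      obtain ⟨k, x, rfl⟩ := hc1 w
      obtain ⟨x', hx'⟩ := hl3.sum x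
      obtain ⟨t, ht⟩ := near a (B (k • v + comb c (x + (2 : ℤ) • x')) v) ha0
      refine ⟨comb c x', t, ?_⟩
      have e1 : k • v + comb c x + (2 : ℤ) • comb c x' + t • v =
          (k + t) • v + comb c (x + (2 : ℤ) • x') := by
        rw [comb_add, comb_smul, add_smul]
        abel
      rw [e1, List.sum_cons, sum_map_div]
      have h1 := hid (k + t) (x + (2 : ℤ) • x')
      have h3 : B ((k + t) • v + comb c (x + (2 : ℤ) • x')) v =
          B (k • v + comb c (x + (2 : ℤ) • x')) v + t * a := by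
        rw [hB.add_left, hB.add_left, hB.smul_left, hB.smul_left, ← ha]; ring
      rw [h3] at h1
      have h4 : ((a * B ((k + t) • v + comb c (x + (2 : ℤ) • x'))
          ((k + t) • v + comb c (x + (2 : ℤ) • x')) : ℤ) : ℚ) ≤ l.sum + a ^ 2 / 4 := by
        rw [h1]
        have h5 : (((B (k • v + comb c (x + (2 : ℤ) • x')) v + t * a) ^ 2 : ℤ) : ℚ) ≤ a ^ 2 / 4 := by
          have h6 : (((2 * (B (k • v + comb c (x + (2 : ℤ) • x')) v + t * a)) ^ 2 : ℤ) : ℚ) ≤
              a ^ 2 := by exact_mod_cast ht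
          rw [mul_pow, Int.cast_mul] at h6
          push_cast at h6 ⊢
          linarith
        rw [Int.cast_add]
        exact add_le_add hx' h5
      rw [Int.cast_mul] at h4
      have h6 : (a : ℚ) + l.sum / a - 3 / 4 * a = (l.sum + a ^ 2 / 4) / a := by
        field_simp
        ring
      rw [← hx, h6, le_div_iff₀ haQ, mul_comm]
      exact h4

end Pool.Agent.Q168.CF4.Red
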